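import Mathlib
import Pool.Agent.Helper83.HL.St

/-!
Module D of project HL (MP_8be7de_nt).
-/

set_option autoImplicit false

open Pool.Agent.Helper83.HL

namespace Pool.Agent.Helper9.HL

lemma cop {q n : ℕ} (hq : q.Prime) (h1 : 1 ≤ n) (h2 : n < q) : n.Coprime q := by
  rw [Nat.coprime_comm]
  exact (Nat.Prime.coprime_iff_not_dvd hq).mpr fun h =>
    absurd (Nat.le_of_dvd (by omega) h) (by omega)

lemma memHs {q m : ℕ} (hq : q.Prime) (hm : m < q) (n : ℕ) (h1 : 1 ≤ n) (h2 : n < q)
    (hs : ∀ p : ℕ, p.Prime → p ∣ n → p ≤ m) : ∀ u : (ZMod q)ˣ, (u : ZMod q) = (n : ZMod q) →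
      u ∈ Hs q m := by
  induction n using Nat.strong_induction_on with
  | _ n ih =>
    intro u hu
    rcases eq_or_lt_of_le h1 with h | h
    · have : u = 1 := by
        ext
        rw [hu, ← h]
        simp
      rw [this]
      exact one_mem _
    · have hp := Nat.minFac_prime (n := n) (by omega)
      obtain ⟨k, hk⟩ := Nat.minFac_dvd n
      have hpm := hs _ hp (Nat.minFac_dvd n)
      have hk1 : 1 ≤ k := by
        rcases Nat.eq_zero_or_pos k with h0 | h0
        · rw [h0, mul_zero] at hk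
          omega
        · exact h0
      have hkn : k < n := by
        have h2 := hp.two_le
        calc k < 2 * k := by omega
          _ ≤ n.minFac * k := Nat.mul_le_mul_right _ h2
          _ = n := hk.symm
      have hkd : k ∣ n := ⟨n.minFac, by rw [mul_comm]; exact hk⟩
      have ck := cop hq hk1 (by omega)
      have cp := cop hq (n := n.minFac) hp.one_lt.le (by omega)
      have h3 := ih k hkn hk1 (by omega) (fun p pp pd => hs p pp (pd.trans hkd))
        (ZMod.unitOfCoprime k ck) (ZMod.coe_unitOfCoprime k ck)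
      have h4 : ZMod.unitOfCoprime n.minFac cp ∈ Hs q m := by
        apply Subgroup.subset_closure
        exact ⟨n.minFac, hp.two_le, hpm, ZMod.coe_unitOfCoprime _ cp⟩
      have h5 : u = ZMod.unitOfCoprime n.minFac cp * ZMod.unitOfCoprime k ck := by
        ext
        rw [Units.val_mul, ZMod.coe_unitOfCoprime, ZMod.coe_unitOfCoprime, hu]
        conv_lhs => rw [hk]
        push_cast
        rfl
      rw [h5]
      exact mul_mem h4 h3

open Classical in
theorem mD : StD := by
  intro q m hq hm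
  have : Fact q.Prime := ⟨hq⟩
  have : NeZero q := ⟨hq.ne_zero⟩
  set S := (Finset.Icc 1 (q - 1)).filter (fun n => ∀ p : ℕ, p.Prime → p ∣ n → p ≤ m) with hS
  have hmem : ∀ n : S, 1 ≤ (n : ℕ) ∧ (n : ℕ) < q ∧ ∀ p : ℕ, p.Prime → p ∣ (n : ℕ) → p ≤ m := by
    rintro ⟨n, hn⟩
    rw [hS, Finset.mem_filter, Finset.mem_Icc] at hn
    have := hq.two_le
    exact ⟨hn.1.1, by simp only; omega, hn.2⟩
  let f : S → Hs q m := fun n =>
    ⟨ZMod.unitOfCoprime (n : ℕ) (cop hq (hmem n).1 (hmem n).2.1),
      memHs hq hm n (hmem n).1 (hmem n).2.1 (hmem n).2.2 _ (ZMod.coe_unitOfCoprime _ _)⟩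
  have hf : Function.Injective f := by
    intro a b hab
    have h1 : ((ZMod.unitOfCoprime (a : ℕ) (cop hq (hmem a).1 (hmem a).2.1) : (ZMod q)ˣ) : ZMod q)
        = (ZMod.unitOfCoprime (b : ℕ) (cop hq (hmem b).1 (hmem b).2.1) : (ZMod q)ˣ) := by
      have := congrArg (fun x : Hs q m => ((x : (ZMod q)ˣ) : ZMod q)) hab
      exact this
    rw [ZMod.coe_unitOfCoprime, ZMod.coe_unitOfCoprime] at h1
    have h2 := (ZMod.natCast_eq_natCast_iff' _ _ _).mp h1
    rw [Nat.mod_eq_of_lt (hmem a).2.1, Nat.mod_eq_of_lt (hmem b).2.1] at h2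
    exact Subtype.ext h2
  have h := Nat.card_le_card_of_injective f hf
  unfold Psi Dq
  rw [Nat.card_eq_fintype_card, Fintype.card_coe] at h
  convert h using 1

end Pool.Agent.Helper9.HL
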